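import Pool.Agent.PCL.Stmts

/-!
Squad PCL (MP_1fc801_co), row MNT: from many orthogonal pairs to a rich line.
-/

set_option autoImplicit false

namespace Pool.Agent.PCL.H3

open Real

/-- the exponents of the scales -/
def ex (D : ℕ) : ℕ → ℕ
  | 0 => 1
  | k + 1 => (D + 1) * ex D k + 2

theorem ex_pos (D k : ℕ) : 1 ≤ ex D k := by
  induction k with
  | zero => exact le_refl 1
  | succ k ih => unfold ex; omega

theorem ex_mono (D : ℕ) : Monotone (ex D) := by
  refine monotone_nat_of_le_succ fun k => ?_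
  show ex D k ≤ (D + 1) * ex D k + 2
  nlinarith [Nat.zero_le (D * ex D k)]

theorem cnt_mono {ι : Type} [Fintype ι] [DecidableEq ι] (L : Submodule ℤ (ι → ℤ))
    (N : ι → ℕ) {r s : ℝ} (h : r ≤ s) : cnt L N r ≤ cnt L N s := by
  unfold cnt
  refine Finset.card_le_card fun x hx => ?_
  simp only [Finset.mem_filter] at hx ⊢
  refine ⟨?_, hx.2⟩
  rw [mem_bx] at hx ⊢
  intro i
  refine (hx.1 i).trans ?_
  exact mul_le_mul_of_nonneg_right h (Nat.cast_nonneg _)

/-- the constants of `PthStmt` for all dimensions up to `D` -/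
theorem pth_unif (hP : PthStmt) (D : ℕ) : ∃ C : ℝ, 1 ≤ C ∧ ∀ (ι : Type) [Fintype ι]
    [DecidableEq ι] (g : ι → ℂ)
    (N : ι → ℕ) (ε τ δ : ℝ) (T : Finset (ι → ℤ)) (Q : ℕ), 1 ≤ Fintype.card ι →
    Fintype.card ι ≤ D →
    (∀ i, 1 ≤ N i) → LinearIndependent ℚ g → 0 < ε → ε ≤ 1 → 0 < τ → 0 < δ →
    Fam g N ε τ 8 T → δ * (bx N ε).card ≤ T.card → 72 ^ D * ε < τ →
    (∀ i, 72 ^ D < τ * N i) → 2 ≤ Q → 1 / τ ≤ Q → 1 / δ ≤ Q → (∀ i, N i ≤ 2 ^ Q) →
    ∃ e : ℂ, e ≠ 0 ∧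
      Real.sqrt (∏ i, (N i : ℝ)) ≤ Real.exp (C * (Real.log Q) ^ 2) * cnt (Lat g e) N 8 := by
  have key : ∀ n : ℕ, ∃ C : ℝ, 1 ≤ C ∧ ∀ D', 1 ≤ D' → D' ≤ n → ∀ (ι : Type) [Fintype ι]
    [DecidableEq ι] (g : ι → ℂ)
    (N : ι → ℕ) (ε τ δ : ℝ) (T : Finset (ι → ℤ)) (Q : ℕ), Fintype.card ι = D' →
    (∀ i, 1 ≤ N i) → LinearIndependent ℚ g → 0 < ε → ε ≤ 1 → 0 < τ → 0 < δ →
    Fam g N ε τ 8 T → δ * (bx N ε).card ≤ T.card → 72 ^ D' * ε < τ →
    (∀ i, 72 ^ D' < τ * N i) → 2 ≤ Q → 1 / τ ≤ Q → 1 / δ ≤ Q → (∀ i, N i ≤ 2 ^ Q) →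
    ∃ e : ℂ, e ≠ 0 ∧
      Real.sqrt (∏ i, (N i : ℝ)) ≤ Real.exp (C * (Real.log Q) ^ 2) * cnt (Lat g e) N 8 := by
    intro n
    induction n with
    | zero => exact ⟨1, le_refl 1, fun D' h1 h0 => absurd h1 (by omega)⟩
    | succ n ih =>
      obtain ⟨C₁, h1, H1⟩ := ih
      obtain ⟨C₂, h2, H2⟩ := hP (n + 1) (by omega)
      refine ⟨max C₁ C₂, h1.trans (le_max_left _ _), ?_⟩
      intro D' hD1 hDn ι _ _ g N ε τ δ T Q hc hN hg hε hε1 hτ hδ hF hT h72 h72' hQ ht hd hNQ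
      have hmono : ∀ C' : ℝ, C' ≤ max C₁ C₂ → ∀ c : ℕ,
          Real.exp (C' * (Real.log Q) ^ 2) * c ≤ Real.exp (max C₁ C₂ * (Real.log Q) ^ 2) * c := by
        intro C' hC' c
        refine mul_le_mul_of_nonneg_right (Real.exp_le_exp.mpr ?_) (Nat.cast_nonneg _)
        exact mul_le_mul_of_nonneg_right hC' (sq_nonneg _)
      rcases Nat.lt_or_ge n D' with hlt | hge
      · have hD : D' = n + 1 := by omega
        subst hD
        obtain ⟨e, he, h⟩ := H2 ι g N ε τ δ T Q hc hN hg hε hε1 hτ hδ hF hT h72 h72' hQ ht hd hNQ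
        exact ⟨e, he, h.trans (hmono C₂ (le_max_right _ _) _)⟩
      · obtain ⟨e, he, h⟩ :=
          H1 D' hD1 hge ι g N ε τ δ T Q hc hN hg hε hε1 hτ hδ hF hT h72 h72' hQ ht hd hNQ
        exact ⟨e, he, h.trans (hmono C₁ (le_max_left _ _) _)⟩
  obtain ⟨C, h1, H⟩ := key D
  refine ⟨C, h1, ?_⟩
  intro ι _ _ g N ε τ δ T Q hc1 hcD hN hg hε hε1 hτ hδ hF hT h72 h72' hQ ht hd hNQ
  have hpow : (72 : ℝ) ^ Fintype.card ι ≤ 72 ^ D := pow_le_pow_right₀ (by norm_num) hcD
  refine H _ hc1 hcD ι g N ε τ δ T Q rfl hN hg hε hε1 hτ hδ hF hT ?_ ?_ hQ ht hd hNQ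
  · exact (mul_le_mul_of_nonneg_right hpow hε.le).trans_lt h72
  · exact fun i => hpow.trans_lt (h72' i)

theorem mnt (hS : SclStmt) (hR : RstStmt) (hE : ExtStmt) (hP : PthStmt) (hG : GapStmt) :
    MntStmt := by
  intro D
  obtain ⟨CS, hCS1, HS⟩ := hS D
  obtain ⟨CP, hCP1, HP⟩ := pth_unif hP D
  set E : ℕ := ex D (D + 1) with hEdef
  have hE1 : 1 ≤ E := ex_pos _ _
  have hE1' : (1 : ℝ) ≤ E := by exact_mod_cast hE1
  set M : ℝ := 72 ^ D * 81 ^ D * CS with hM
  have h7281 : (1 : ℝ) ≤ 72 ^ D * 81 ^ D :=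
    one_le_mul_of_one_le_of_one_le (one_le_pow₀ (by norm_num)) (one_le_pow₀ (by norm_num))
  have hM1 : CS ≤ M := by
    rw [hM]
    nlinarith
  have hM0 : 0 < M := by linarith
  have hCSE : 0 ≤ CS * (2 + 9 * (E : ℝ)) := by positivity
  have hPE : 0 ≤ 9 * CP * (E : ℝ) ^ 2 + 3 * D * E := by positivity
  refine ⟨CS * (2 + 9 * (E : ℝ)) + M + (9 * CP * (E : ℝ) ^ 2 + 3 * D * E) + 3, by linarith, ?_⟩
  intro ι _ _ g N Q hcard hN hg hCQ hNQ hprp
  set C : ℝ := CS * (2 + 9 * (E : ℝ)) + M + (9 * CP * (E : ℝ) ^ 2 + 3 * D * E) + 3 with hC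
  have hC3 : 3 ≤ C := by linarith
  have hCM : M ≤ C := by linarith
  have hCE : CS * (2 + 9 * (E : ℝ)) ≤ C := by linarith
  have hCP : 9 * CP * (E : ℝ) ^ 2 + 3 * D * E ≤ C := by linarith
  have hQ3 : (3 : ℝ) ≤ Q := hC3.trans hCQ
  have hQ3' : 3 ≤ Q := by exact_mod_cast hQ3
  have hMQ : M ≤ Q := hCM.trans hCQ
  have hCSQ : CS ≤ Q := hM1.trans hMQ
  have hlog1 : 1 ≤ Real.log Q := by
    rw [Real.le_log_iff_exp_le (by linarith)]
    exact (Real.exp_one_lt_d9.le.trans (by norm_num)).trans hQ3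
  have hlogsq : Real.log Q ≤ (Real.log Q) ^ 2 := by nlinarith
  have hQ1 : (Q : ℝ) + 1 ≤ (Q : ℝ) ^ 2 := by nlinarith
  have hP0 : 0 ≤ ∏ i, (N i : ℝ) := Finset.prod_nonneg fun i _ => Nat.cast_nonneg _
  -- the scale `j₀`
  set L : ℕ := Nat.log 2 Q + 1 with hL
  have hQL : Q ≤ 2 ^ L := (Nat.lt_pow_succ_log_self (by norm_num) Q).le
  have hLlog : (L : ℝ) ≤ 3 * Real.log Q := by
    have h1 : 2 ^ Nat.log 2 Q ≤ Q := Nat.pow_log_le_self 2 (by omega)
    have h2 : ((2 : ℝ)) ^ Nat.log 2 Q ≤ Q := by exact_mod_cast h1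
    have h3 : (Nat.log 2 Q : ℝ) * Real.log 2 ≤ Real.log Q := by
      rw [← Real.log_pow]
      exact Real.log_le_log (by positivity) h2
    have h4 : (0.5 : ℝ) < Real.log 2 := by
      have := Real.log_two_gt_d9
      linarith
    have h5 : (Nat.log 2 Q : ℝ) * 0.5 ≤ Real.log Q :=
      (mul_le_mul_of_nonneg_left h4.le (Nat.cast_nonneg _)).trans h3
    rw [hL]
    push_cast
    linarith
  set j₀ : ℕ := 2 + 3 * E * L with hj
  have h2j : (4 : ℝ) * ((Q : ℝ) ^ 3) ^ E ≤ 2 ^ j₀ := by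
    have h1 : ((Q : ℝ) ^ 3) ^ E ≤ ((2 : ℝ) ^ L) ^ (3 * E) := by
      rw [← pow_mul]
      exact pow_le_pow_left₀ (by positivity) (by exact_mod_cast hQL) _
    have h2 : ((2 : ℝ)) ^ j₀ = 4 * (2 ^ L) ^ (3 * E) := by
      have h3 : j₀ = 2 + L * (3 * E) := by
        rw [hj]
        ring
      rw [h3, pow_add, pow_mul]
      norm_num
    rw [h2]
    exact mul_le_mul_of_nonneg_left h1 (by norm_num)
  have hSprp : CS * j₀ * ∏ i, (N i : ℝ) ≤ prp g N 4 := by
    refine le_trans (mul_le_mul_of_nonneg_right ?_ hP0) hprp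
    have h1 : (j₀ : ℝ) ≤ (2 + 9 * E) * Real.log Q := by
      rw [hj]
      push_cast
      have h2 : 3 * (E : ℝ) * L ≤ 3 * E * (3 * Real.log Q) :=
        mul_le_mul_of_nonneg_left hLlog (by positivity)
      nlinarith
    calc CS * (j₀ : ℝ) ≤ CS * ((2 + 9 * E) * Real.log Q) :=
          mul_le_mul_of_nonneg_left h1 (by linarith)
      _ = CS * (2 + 9 * E) * Real.log Q := by ring
      _ ≤ C * Real.log Q := mul_le_mul_of_nonneg_right hCE (by linarith)
  rcases HS ι g N Q j₀ hcard hN hg hNQ (by omega) hSprp with ⟨e, he, h⟩ | ⟨ε, T, hε, hεj, hF, hT⟩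
  · -- first alternative
    refine ⟨e, he, ?_⟩
    have hmono : (cnt (Lat g e) N 4 : ℝ) ≤ cnt (Lat g e) N 8 := by
      exact_mod_cast cnt_mono _ _ (by norm_num)
    have h1 : Real.sqrt (∏ i, (N i : ℝ)) ≤ CS * ((Q : ℝ) + 1) * cnt (Lat g e) N 4 := by
      rw [Real.sqrt_le_left (by positivity)]
      refine h.trans ?_
      have h2 : CS ≤ CS ^ 2 := by nlinarith
      calc CS * ((Q : ℝ) + 1) ^ 2 * (cnt (Lat g e) N 4 : ℝ) ^ 2
          ≤ CS ^ 2 * ((Q : ℝ) + 1) ^ 2 * (cnt (Lat g e) N 4 : ℝ) ^ 2 := by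
            refine mul_le_mul_of_nonneg_right ?_ (sq_nonneg _)
            exact mul_le_mul_of_nonneg_right h2 (sq_nonneg _)
        _ = (CS * ((Q : ℝ) + 1) * cnt (Lat g e) N 4) ^ 2 := by ring
    refine h1.trans (mul_le_mul ?_ hmono (Nat.cast_nonneg _) (Real.exp_pos _).le)
    calc CS * ((Q : ℝ) + 1) ≤ Q * (Q : ℝ) ^ 2 :=
          mul_le_mul hCSQ hQ1 (by positivity) (by positivity)
      _ = (Q : ℝ) ^ 3 := by ring
      _ = Real.exp (3 * Real.log Q) := by
          rw [show (3 : ℝ) * Real.log Q = ((3 : ℕ) : ℝ) * Real.log Q by norm_num, Real.exp_nat_mul,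
            Real.exp_log (by linarith)]
      _ ≤ Real.exp (C * (Real.log Q) ^ 2) := by
          refine Real.exp_le_exp.mpr ?_
          have : 3 * Real.log Q ≤ 3 * (Real.log Q) ^ 2 := by linarith
          refine this.trans (mul_le_mul_of_nonneg_right hC3 (sq_nonneg _))
  · -- second alternative
    set q : ℕ := Q ^ 3 with hq
    have hq1 : 1 ≤ q := Nat.one_le_pow _ _ (by omega)
    set t : ℕ → ℕ := fun k => q ^ ex D k with ht
    have htmono : Monotone t := fun a b hab => Nat.pow_le_pow_right hq1 (ex_mono D hab)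
    obtain ⟨k, hk, hgap⟩ := hG ι N t htmono
    rw [hcard] at hk
    have ht1 : ∀ k, 1 ≤ t k := fun k => Nat.one_le_pow _ _ hq1
    have htD : t (k + 1) ≤ t (D + 1) := htmono (by omega)
    have htE : (t (D + 1) : ℝ) = ((Q : ℝ) ^ 3) ^ E := by
      rw [ht, hq, hEdef]
      push_cast
      rfl
    have htE' : 4 * (t (D + 1) : ℝ) ≤ 2 ^ j₀ := by rw [htE]; exact h2j
    have hs : t (k + 1) = t k ^ (D + 1) * q ^ 2 := by
      show q ^ ((D + 1) * ex D k + 2) = (q ^ ex D k) ^ (D + 1) * q ^ 2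
      rw [pow_add, mul_comm (D + 1) (ex D k), pow_mul]
    have h2jpos : (0 : ℝ) < 2 ^ j₀ := by positivity
    have hεt : 2 * ε * t (D + 1) ≤ 1 := by
      have h1 : ε * 2 ^ j₀ ≤ 2 := by
        rw [le_div_iff₀ h2jpos] at hεj
        exact hεj
      have h2 : ε * (4 * (t (D + 1) : ℝ)) ≤ ε * 2 ^ j₀ := mul_le_mul_of_nonneg_left htE' hε.le
      linarith
    set p : ι → Prop := fun i => t (k + 1) ≤ N i with hp
    have hnp : ∀ i, ¬ p i → N i < t k := by
      intro i hi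
      rcases hgap i with h | h
      · exact h
      · exact absurd h hi
    have hsmall : ∀ i, ¬ p i → 2 * ε * N i < 1 := by
      intro i hi
      have h1 : (N i : ℝ) < t (D + 1) := by
        exact_mod_cast (hnp i hi).trans_le (htmono (by omega))
      calc 2 * ε * (N i : ℝ) < 2 * ε * t (D + 1) := by
            exact mul_lt_mul_of_pos_left h1 (by positivity)
        _ ≤ 1 := hεt
    set τ₀ : ℝ := 1 / (CS * ((Q : ℝ) + 1) ^ 2) with hτ₀
    have hCSQ2 : 0 < CS * ((Q : ℝ) + 1) ^ 2 := by positivity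
    have hτ₀pos : 0 < τ₀ := by rw [hτ₀]; positivity
    obtain ⟨T', hT'c, hbx, hF'⟩ := hR ι g N ε τ₀ T p hN hg hε hτ₀pos hF hsmall
    set W : ℝ := ∏ i ∈ Finset.univ.filter (fun i => ¬ p i), (81 * (N i : ℝ)) with hW
    have hW1 : 1 ≤ W := by
      rw [hW]
      refine Finset.one_le_prod fun i _ => ?_
      have : (1 : ℝ) ≤ N i := by exact_mod_cast hN i
      linarith
    have hW0 : 0 < W := by linarith
    have htk1 : (1 : ℝ) ≤ t k := by exact_mod_cast ht1 k
    have hcf : (Finset.univ.filter (fun i => ¬ p i)).card ≤ D := by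
      rw [← hcard]
      exact Finset.card_le_univ _
    have hWle : W ≤ 81 ^ D * (t k : ℝ) ^ D := by
      rw [hW, ← mul_pow]
      calc ∏ i ∈ Finset.univ.filter (fun i => ¬ p i), (81 * (N i : ℝ))
          ≤ ∏ i ∈ Finset.univ.filter (fun i => ¬ p i), (81 * (t k : ℝ)) := by
            refine Finset.prod_le_prod (fun i _ => by positivity) fun i hi => ?_
            rw [Finset.mem_filter] at hi
            have : (N i : ℝ) ≤ t k := by exact_mod_cast (hnp i hi.2).le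
            linarith
        _ = (81 * (t k : ℝ)) ^ (Finset.univ.filter (fun i => ¬ p i)).card := by
            rw [Finset.prod_const]
        _ ≤ (81 * (t k : ℝ)) ^ D := pow_le_pow_right₀ (by linarith) hcf
    set τ : ℝ := τ₀ / W with hτ
    have hτpos : 0 < τ := div_pos hτ₀pos hW0
    have hτinv : 1 / τ = CS * ((Q : ℝ) + 1) ^ 2 * W := by
      rw [hτ, hτ₀]
      field_simp
    -- the main inequality
    have hmain : 72 ^ D * (1 / τ) < t (k + 1) := by
      rw [hτinv, hs]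
      push_cast
      have hqQ : (q : ℝ) = (Q : ℝ) ^ 3 := by rw [hq]; push_cast; rfl
      rw [hqQ]
      have h1 : 72 ^ D * (CS * ((Q : ℝ) + 1) ^ 2 * W) ≤ M * (Q : ℝ) ^ 4 * (t k : ℝ) ^ D := by
        have h2 : ((Q : ℝ) + 1) ^ 2 ≤ (Q : ℝ) ^ 4 := by
          calc ((Q : ℝ) + 1) ^ 2 ≤ ((Q : ℝ) ^ 2) ^ 2 := pow_le_pow_left₀ (by positivity) hQ1 2
            _ = (Q : ℝ) ^ 4 := by ring
        calc 72 ^ D * (CS * ((Q : ℝ) + 1) ^ 2 * W)
            ≤ 72 ^ D * (CS * (Q : ℝ) ^ 4 * (81 ^ D * (t k : ℝ) ^ D)) := by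
              refine mul_le_mul_of_nonneg_left ?_ (by positivity)
              refine mul_le_mul ?_ hWle hW0.le (by positivity)
              exact mul_le_mul_of_nonneg_left h2 (by linarith)
          _ = M * (Q : ℝ) ^ 4 * (t k : ℝ) ^ D := by rw [hM]; ring
      refine h1.trans_lt ?_
      have h3 : M * (Q : ℝ) ^ 4 < ((Q : ℝ) ^ 3) ^ 2 := by
        have h4 : M * (Q : ℝ) ^ 4 ≤ Q * (Q : ℝ) ^ 4 := mul_le_mul_of_nonneg_right hMQ (by positivity)
        have h5 : (Q : ℝ) * (Q : ℝ) ^ 4 < ((Q : ℝ) ^ 3) ^ 2 := by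
          have h6 : (Q : ℝ) ^ 5 < (Q : ℝ) ^ 6 := pow_lt_pow_right₀ (by linarith) (by norm_num)
          calc (Q : ℝ) * (Q : ℝ) ^ 4 = (Q : ℝ) ^ 5 := by ring
            _ < (Q : ℝ) ^ 6 := h6
            _ = ((Q : ℝ) ^ 3) ^ 2 := by ring
        linarith
      have htkD : (0 : ℝ) < (t k : ℝ) ^ D := by positivity
      calc M * (Q : ℝ) ^ 4 * (t k : ℝ) ^ D < ((Q : ℝ) ^ 3) ^ 2 * (t k : ℝ) ^ D :=
            mul_lt_mul_of_pos_right h3 htkD
        _ ≤ ((Q : ℝ) ^ 3) ^ 2 * (t k : ℝ) ^ (D + 1) := by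
            refine mul_le_mul_of_nonneg_left ?_ (by positivity)
            exact pow_le_pow_right₀ htk1 (by omega)
        _ = (t k : ℝ) ^ (D + 1) * ((Q : ℝ) ^ 3) ^ 2 := by ring
    have hmain' : 72 ^ D < τ * t (k + 1) := by
      have h1 := mul_lt_mul_of_pos_left hmain hτpos
      have h2 : τ * (72 ^ D * (1 / τ)) = 72 ^ D := by field_simp
      rw [h2] at h1
      exact h1
    have h72 : (1 : ℝ) ≤ 72 ^ D := one_le_pow₀ (by norm_num)
    have hinv : 1 / τ ≤ t (D + 1) := by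
      have h0 : 0 < 1 / τ := by positivity
      have h1 : 1 / τ ≤ 72 ^ D * (1 / τ) := by nlinarith
      have h2 : (t (k + 1) : ℝ) ≤ t (D + 1) := by exact_mod_cast htD
      linarith
    -- nonempty
    have hTpos : 0 < T.card := by
      have h1 : 1 ≤ (bx N ε).card := by
        refine Finset.card_pos.mpr ⟨0, ?_⟩
        rw [mem_bx]
        intro i
        simp only [Pi.zero_apply, Int.cast_zero, abs_zero]
        positivity
      have h2 : (1 : ℝ) ≤ (bx N ε).card := by exact_mod_cast h1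
      by_contra h0
      have h3 : T.card = 0 := by omega
      rw [h3] at hT
      simp only [Nat.cast_zero, mul_zero] at hT
      linarith
    have hcp : 1 ≤ Fintype.card {i // p i} := by
      by_contra h0
      have h3 : Fintype.card {i // p i} = 0 := by omega
      rw [Fintype.card_eq_zero_iff] at h3
      obtain ⟨v, hv⟩ : T'.Nonempty := by
        rw [← Finset.card_pos, hT'c]
        exact hTpos
      exact hF'.nz v hv (funext fun i => (h3.false i).elim)
    have hcpD : Fintype.card {i // p i} ≤ D := by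
      rw [← hcard]
      exact Fintype.card_subtype_le _
    have hg' : LinearIndependent ℚ (fun i : {i // p i} => g i) :=
      hg.comp _ Subtype.val_injective
    have hδpos : 0 < 1 / (CS * ((Q : ℝ) + 1)) := by positivity
    have htD1 : (1 : ℝ) ≤ t (D + 1) := by exact_mod_cast ht1 (D + 1)
    have hε1 : ε ≤ 1 := by nlinarith
    have hqt : (q : ℝ) ≤ t (D + 1) := by
      have : q ≤ t (D + 1) := by
        show q ≤ q ^ ex D (D + 1)
        calc q = q ^ 1 := (pow_one q).symm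
          _ ≤ q ^ ex D (D + 1) := Nat.pow_le_pow_right hq1 (ex_pos _ _)
      exact_mod_cast this
    have hqQ : (q : ℝ) = (Q : ℝ) ^ 3 := by rw [hq]; push_cast; rfl
    have hQq : (Q : ℝ) ≤ q := by
      rw [hqQ]
      calc (Q : ℝ) = (Q : ℝ) ^ 1 := (pow_one _).symm
        _ ≤ (Q : ℝ) ^ 3 := pow_le_pow_right₀ (by linarith) (by norm_num)
    have hQt : Q ≤ t (D + 1) := by
      have h1 : (Q : ℝ) ≤ t (D + 1) := hQq.trans hqt
      exact_mod_cast h1
    obtain ⟨e, he, hres⟩ := HP {i // p i} (fun i => g i) (fun i => N i) ε τ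
      (1 / (CS * ((Q : ℝ) + 1))) T' (t (D + 1)) hcp hcpD (fun i => hN i) hg' hε hε1 hτpos hδpos hF'
      (by
        rw [hbx, hT'c]
        have h1 : 0 < CS * ((Q : ℝ) + 1) := by positivity
        rw [one_div, inv_mul_le_iff₀ h1]
        exact hT)
      (by
        have h1 : (t (k + 1) : ℝ) ≤ t (D + 1) := by exact_mod_cast htD
        have h2 : ε * t (k + 1) ≤ 1 / 2 := by
          have := mul_le_mul_of_nonneg_left h1 hε.le
          linarith
        have h3 : 72 ^ D * ε < τ * t (k + 1) * ε := mul_lt_mul_of_pos_right hmain' hε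
        nlinarith)
      (by
        intro i
        have h1 : (t (k + 1) : ℝ) ≤ N i := by exact_mod_cast i.2
        exact hmain'.trans_le (mul_le_mul_of_nonneg_left h1 hτpos.le))
      (by omega)
      hinv
      (by
        rw [one_div_one_div]
        calc CS * ((Q : ℝ) + 1) ≤ Q * (Q : ℝ) ^ 2 :=
              mul_le_mul hCSQ hQ1 (by positivity) (by positivity)
          _ = q := by rw [hqQ]; ring
          _ ≤ t (D + 1) := hqt)
      (by
        intro i
        have h1 := hNQ i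
        calc N i ≤ 4 * N i := by omega
          _ ≤ 2 ^ Q := h1
          _ ≤ 2 ^ t (D + 1) := Nat.pow_le_pow_right (by norm_num) hQt)
    refine ⟨e, he, ?_⟩
    have hext : (cnt (Lat (fun i : {i // p i} => g i) e) (fun i : {i // p i} => N i) 8 : ℝ) ≤
        cnt (Lat g e) N 8 := by
      exact_mod_cast hE ι g N p e 8 (by norm_num)
    have hprod : ∏ i, (N i : ℝ) ≤ ((t k : ℝ) ^ D) ^ 2 * ∏ i : {i // p i}, (N i : ℝ) := by
      have h1 : ∏ i, (N i : ℝ) = (∏ i : {i // p i}, (N i : ℝ)) *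
          ∏ i ∈ Finset.univ.filter (fun i => ¬ p i), (N i : ℝ) := by
        rw [← Finset.prod_filter_mul_prod_filter_not Finset.univ p]
        congr 1
        exact Finset.prod_subtype _ (fun i => by simp) _
      rw [h1, mul_comm]
      refine mul_le_mul_of_nonneg_right ?_ (Finset.prod_nonneg fun i _ => Nat.cast_nonneg _)
      calc ∏ i ∈ Finset.univ.filter (fun i => ¬ p i), (N i : ℝ)
          ≤ ∏ i ∈ Finset.univ.filter (fun i => ¬ p i), (t k : ℝ) := by
            refine Finset.prod_le_prod (fun i _ => Nat.cast_nonneg _) fun i hi => ?_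
            rw [Finset.mem_filter] at hi
            exact_mod_cast (hnp i hi.2).le
        _ = (t k : ℝ) ^ (Finset.univ.filter (fun i => ¬ p i)).card := by rw [Finset.prod_const]
        _ ≤ (t k : ℝ) ^ D := pow_le_pow_right₀ htk1 hcf
        _ ≤ ((t k : ℝ) ^ D) ^ 2 := by
            have : (1 : ℝ) ≤ (t k : ℝ) ^ D := one_le_pow₀ htk1
            nlinarith
    have hsq : Real.sqrt (∏ i, (N i : ℝ)) ≤
        (t k : ℝ) ^ D * Real.sqrt (∏ i : {i // p i}, (N i : ℝ)) := by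
      refine (Real.sqrt_le_sqrt hprod).trans ?_
      rw [Real.sqrt_mul (sq_nonneg _), Real.sqrt_sq (by positivity)]
    have hlogt : Real.log (t (D + 1) : ℝ) = 3 * E * Real.log Q := by
      rw [htE, Real.log_pow, Real.log_pow]
      push_cast
      ring
    have htk : (t k : ℝ) ^ D ≤ Real.exp (3 * D * E * Real.log Q) := by
      have h1 : (t k : ℝ) ≤ t (D + 1) := by exact_mod_cast htmono (by omega)
      calc (t k : ℝ) ^ D ≤ (t (D + 1) : ℝ) ^ D := pow_le_pow_left₀ (by positivity) h1 _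
        _ = Real.exp (D * Real.log (t (D + 1) : ℝ)) := by
            rw [Real.exp_nat_mul, Real.exp_log (by linarith)]
        _ = Real.exp (3 * D * E * Real.log Q) := by rw [hlogt]; congr 1; ring
    calc Real.sqrt (∏ i, (N i : ℝ))
        ≤ (t k : ℝ) ^ D * Real.sqrt (∏ i : {i // p i}, (N i : ℝ)) := hsq
      _ ≤ Real.exp (3 * D * E * Real.log Q) *
          (Real.exp (CP * (Real.log (t (D + 1) : ℝ)) ^ 2) * cnt (Lat g e) N 8) := by
          refine mul_le_mul htk (hres.trans ?_) (Real.sqrt_nonneg _) (Real.exp_pos _).le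
          exact mul_le_mul_of_nonneg_left hext (Real.exp_pos _).le
      _ = Real.exp (3 * D * E * Real.log Q + CP * (Real.log (t (D + 1) : ℝ)) ^ 2) *
          cnt (Lat g e) N 8 := by
          rw [Real.exp_add]
          ring
      _ ≤ Real.exp (C * (Real.log Q) ^ 2) * cnt (Lat g e) N 8 := by
          refine mul_le_mul_of_nonneg_right (Real.exp_le_exp.mpr ?_) (Nat.cast_nonneg _)
          rw [hlogt]
          have h1 : 3 * (D : ℝ) * E * Real.log Q ≤ 3 * D * E * (Real.log Q) ^ 2 :=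
            mul_le_mul_of_nonneg_left hlogsq (by positivity)
          have h2 : (9 * CP * (E : ℝ) ^ 2 + 3 * D * E) * (Real.log Q) ^ 2 ≤
              C * (Real.log Q) ^ 2 := mul_le_mul_of_nonneg_right hCP (sq_nonneg _)
          nlinarith

end Pool.Agent.PCL.H3
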