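import Pool.Agent.PCL.StmtsB
import Pool.Agent.Helper3_PCL.MNT

/-!
Squad PCL (MP_1fc801_co), row MN2: from many orthogonal pairs to a rich line (thresholds in `j`).
-/

set_option autoImplicit false

namespace Pool.Agent.PCL.H3

open Real

theorem exists_j0 (K E : ℕ) : ∃ j₀ : ℕ, 1 ≤ j₀ ∧ ∀ j ≥ j₀,
    4 * ((K : ℝ) * (j : ℝ) ^ 4) ^ E ≤ 2 ^ j := by
  have h := tendsto_pow_const_div_const_pow_of_one_lt (4 * E) (one_lt_two : (1 : ℝ) < 2)
  have hpos : (0 : ℝ) < 1 / (4 * ((K : ℝ) ^ E + 1)) := by positivity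
  have h2 := (h.eventually (gt_mem_nhds hpos)).and (Filter.eventually_ge_atTop 1)
  obtain ⟨j₀, hj⟩ := Filter.eventually_atTop.mp h2
  refine ⟨max j₀ 1, le_max_right _ _, fun j hj' => ?_⟩
  have h3 := (hj j ((le_max_left _ _).trans hj')).1
  rw [div_lt_div_iff₀ (by positivity) (by positivity)] at h3
  have h4 : (0 : ℝ) ≤ (j : ℝ) ^ (4 * E) := by positivity
  rw [mul_pow, ← pow_mul]
  nlinarith

theorem mn2 (hS : Sc2Stmt) (hR : RstStmt) (hE : ExtStmt) (hP : PthStmt) (hG : GapStmt) :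
    Mn2Stmt := by
  intro D
  obtain ⟨CS, hCS1, HS⟩ := hS D
  obtain ⟨CP, hCP1, HP⟩ := pth_unif hP D
  set E : ℕ := ex D (D + 1) with hEdef
  have hE1 : 1 ≤ E := ex_pos _ _
  have hE1' : (1 : ℝ) ≤ E := by exact_mod_cast hE1
  set M : ℝ := 72 ^ D * 81 ^ D * CS with hM
  have h7281 : (1 : ℝ) ≤ 72 ^ D * 81 ^ D :=
    one_le_mul_of_one_le_of_one_le (one_le_pow₀ (by norm_num)) (one_le_pow₀ (by norm_num))
  have hM1 : CS ≤ M := by
    rw [hM]
    nlinarith
  set K : ℕ := ⌈M⌉₊ + 1 with hK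
  have hMK : M ≤ K := by
    rw [hK]
    push_cast
    exact (Nat.le_ceil M).trans (by linarith)
  have hK2 : 2 ≤ K := by
    have : 0 < ⌈M⌉₊ := Nat.ceil_pos.mpr (by linarith)
    omega
  have hK2' : (2 : ℝ) ≤ K := by exact_mod_cast hK2
  obtain ⟨j₀, hj₀1, hj₀⟩ := exists_j0 K E
  have hCSj : 0 ≤ CS * (j₀ : ℝ) := by positivity
  have hPE : 0 ≤ CP * (5 * (E : ℝ) + 1) ^ 2 + 5 * D * E := by positivity
  refine ⟨CS * (j₀ : ℝ) + K + (CP * (5 * (E : ℝ) + 1) ^ 2 + 5 * D * E) + 3, by linarith, ?_⟩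
  intro ι _ _ g N Q hcard hN hg hCQ hNQ hprp
  set C : ℝ := CS * (j₀ : ℝ) + K + (CP * (5 * (E : ℝ) + 1) ^ 2 + 5 * D * E) + 3 with hC
  have hC3 : 3 ≤ C := by linarith
  have hCK : (K : ℝ) ≤ C := by linarith
  have hCE : CS * (j₀ : ℝ) ≤ C := by linarith
  have hCP : CP * (5 * (E : ℝ) + 1) ^ 2 + 5 * D * E ≤ C := by linarith
  have hQ3 : (3 : ℝ) ≤ Q := hC3.trans hCQ
  have hQ3' : 3 ≤ Q := by exact_mod_cast hQ3
  have hKQ : (K : ℝ) ≤ Q := hCK.trans hCQ
  have hCSK : CS ≤ K := hM1.trans hMK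
  have hCSQ : CS ≤ Q := hCSK.trans hKQ
  have hlog1 : 1 ≤ Real.log Q := by
    rw [Real.le_log_iff_exp_le (by linarith)]
    exact (Real.exp_one_lt_d9.le.trans (by norm_num)).trans hQ3
  have hlogsq : Real.log Q ≤ (Real.log Q) ^ 2 := by nlinarith
  have hP0 : 0 ≤ ∏ i, (N i : ℝ) := Finset.prod_nonneg fun i _ => Nat.cast_nonneg _
  have hexpQ : ∀ n : ℕ, (Q : ℝ) ^ n = Real.exp (n * Real.log Q) := fun n => by
    rw [Real.exp_nat_mul, Real.exp_log (by linarith)]
  obtain ⟨j, hj, ⟨i₀, hi₀⟩, hcase⟩ := HS ι g N j₀ hcard hN hg hj₀1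
    ((mul_le_mul_of_nonneg_right hCE hP0).trans hprp)
  have hjQ : j ≤ Q := by
    have h1 : 2 ^ j ≤ 2 ^ Q := hi₀.trans (hNQ i₀)
    exact (Nat.pow_le_pow_iff_right (by norm_num)).mp h1
  have hjQ' : (j : ℝ) ≤ Q := by exact_mod_cast hjQ
  have hj1 : 1 ≤ j := hj₀1.trans hj
  have hj1' : (1 : ℝ) ≤ j := by exact_mod_cast hj1
  have h2j : 4 * ((K : ℝ) * (j : ℝ) ^ 4) ^ E ≤ 2 ^ j := hj₀ j hj
  rcases hcase with ⟨e, he, h⟩ | ⟨T, hF, hT⟩
  · -- first alternative
    refine ⟨e, he, ?_⟩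
    have hmono : (cnt (Lat g e) N 4 : ℝ) ≤ cnt (Lat g e) N 8 := by
      exact_mod_cast cnt_mono _ _ (by norm_num)
    have h1 : Real.sqrt (∏ i, (N i : ℝ)) ≤ CS * (j : ℝ) ^ 2 * cnt (Lat g e) N 4 := by
      rw [Real.sqrt_le_left (by positivity)]
      refine h.trans ?_
      have h2 : CS ≤ CS ^ 2 := by nlinarith
      calc CS * (j : ℝ) ^ 4 * (cnt (Lat g e) N 4 : ℝ) ^ 2
          ≤ CS ^ 2 * (j : ℝ) ^ 4 * (cnt (Lat g e) N 4 : ℝ) ^ 2 := by
            refine mul_le_mul_of_nonneg_right ?_ (sq_nonneg _)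
            exact mul_le_mul_of_nonneg_right h2 (by positivity)
        _ = (CS * (j : ℝ) ^ 2 * cnt (Lat g e) N 4) ^ 2 := by ring
    refine h1.trans (mul_le_mul ?_ hmono (Nat.cast_nonneg _) (Real.exp_pos _).le)
    calc CS * (j : ℝ) ^ 2 ≤ Q * (Q : ℝ) ^ 2 :=
          mul_le_mul hCSQ (pow_le_pow_left₀ (by positivity) hjQ' 2) (by positivity) (by positivity)
      _ = (Q : ℝ) ^ 3 := by ring
      _ = Real.exp (((3 : ℕ) : ℝ) * Real.log Q) := hexpQ 3
      _ ≤ Real.exp (C * (Real.log Q) ^ 2) := by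
          refine Real.exp_le_exp.mpr ?_
          push_cast
          have : 3 * Real.log Q ≤ 3 * (Real.log Q) ^ 2 := by linarith
          refine this.trans (mul_le_mul_of_nonneg_right hC3 (sq_nonneg _))
  · -- second alternative
    set ε : ℝ := 2 / 2 ^ j with hεdef
    have h2jpos : (0 : ℝ) < 2 ^ j := by positivity
    have hε : 0 < ε := by positivity
    set q : ℕ := K * j ^ 4 with hq
    have hq2 : 2 ≤ q := by
      rw [hq]
      have : 1 ≤ j ^ 4 := Nat.one_le_pow _ _ hj1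
      nlinarith
    have hq1 : 1 ≤ q := by omega
    have hqR : (q : ℝ) = (K : ℝ) * (j : ℝ) ^ 4 := by rw [hq]; push_cast; rfl
    have hq2R : (2 : ℝ) ≤ q := by exact_mod_cast hq2
    set t : ℕ → ℕ := fun k => q ^ ex D k with ht
    have htmono : Monotone t := fun a b hab => Nat.pow_le_pow_right hq1 (ex_mono D hab)
    obtain ⟨k, hk, hgap⟩ := hG ι N t htmono
    rw [hcard] at hk
    have ht1 : ∀ k, 1 ≤ t k := fun k => Nat.one_le_pow _ _ hq1
    have htD : t (k + 1) ≤ t (D + 1) := htmono (by omega)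
    have htE : (t (D + 1) : ℝ) = (q : ℝ) ^ E := by
      rw [ht, hEdef]
      push_cast
      rfl
    have htE' : 4 * (t (D + 1) : ℝ) ≤ 2 ^ j := by rw [htE, hqR]; exact h2j
    have hs : t (k + 1) = t k ^ (D + 1) * q ^ 2 := by
      show q ^ ((D + 1) * ex D k + 2) = (q ^ ex D k) ^ (D + 1) * q ^ 2
      rw [pow_add, mul_comm (D + 1) (ex D k), pow_mul]
    have hεt : 2 * ε * t (D + 1) ≤ 1 := by
      have h1 : ε * 2 ^ j = 2 := by
        rw [hεdef]
        field_simp
      have h2 : ε * (4 * (t (D + 1) : ℝ)) ≤ ε * 2 ^ j := mul_le_mul_of_nonneg_left htE' hε.le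
      linarith
    set p : ι → Prop := fun i => t (k + 1) ≤ N i with hp
    have hnp : ∀ i, ¬ p i → N i < t k := by
      intro i hi
      rcases hgap i with h | h
      · exact h
      · exact absurd h hi
    have hsmall : ∀ i, ¬ p i → 2 * ε * N i < 1 := by
      intro i hi
      have h1 : (N i : ℝ) < t (D + 1) := by
        exact_mod_cast (hnp i hi).trans_le (htmono (by omega))
      calc 2 * ε * (N i : ℝ) < 2 * ε * t (D + 1) := by
            exact mul_lt_mul_of_pos_left h1 (by positivity)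
        _ ≤ 1 := hεt
    set τ₀ : ℝ := 1 / (CS * (j : ℝ) ^ 4) with hτ₀
    have hCSQ2 : 0 < CS * (j : ℝ) ^ 4 := by positivity
    have hτ₀pos : 0 < τ₀ := by rw [hτ₀]; positivity
    obtain ⟨T', hT'c, hbx, hF'⟩ := hR ι g N ε τ₀ T p hN hg hε hτ₀pos hF hsmall
    set W : ℝ := ∏ i ∈ Finset.univ.filter (fun i => ¬ p i), (81 * (N i : ℝ)) with hW
    have hW1 : 1 ≤ W := by
      rw [hW]
      refine Finset.one_le_prod fun i _ => ?_
      have : (1 : ℝ) ≤ N i := by exact_mod_cast hN i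
      linarith
    have hW0 : 0 < W := by linarith
    have htk1 : (1 : ℝ) ≤ t k := by exact_mod_cast ht1 k
    have hcf : (Finset.univ.filter (fun i => ¬ p i)).card ≤ D := by
      rw [← hcard]
      exact Finset.card_le_univ _
    have hWle : W ≤ 81 ^ D * (t k : ℝ) ^ D := by
      rw [hW, ← mul_pow]
      calc ∏ i ∈ Finset.univ.filter (fun i => ¬ p i), (81 * (N i : ℝ))
          ≤ ∏ i ∈ Finset.univ.filter (fun i => ¬ p i), (81 * (t k : ℝ)) := by
            refine Finset.prod_le_prod (fun i _ => by positivity) fun i hi => ?_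
            rw [Finset.mem_filter] at hi
            have : (N i : ℝ) ≤ t k := by exact_mod_cast (hnp i hi.2).le
            linarith
        _ = (81 * (t k : ℝ)) ^ (Finset.univ.filter (fun i => ¬ p i)).card := by
            rw [Finset.prod_const]
        _ ≤ (81 * (t k : ℝ)) ^ D := pow_le_pow_right₀ (by linarith) hcf
    set τ : ℝ := τ₀ / W with hτ
    have hτpos : 0 < τ := div_pos hτ₀pos hW0
    have hτinv : 1 / τ = CS * (j : ℝ) ^ 4 * W := by
      rw [hτ, hτ₀]
      field_simp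
    -- the main inequality
    have hmain : 72 ^ D * (1 / τ) < t (k + 1) := by
      rw [hτinv, hs]
      push_cast
      have h1 : 72 ^ D * (CS * (j : ℝ) ^ 4 * W) ≤ q * (t k : ℝ) ^ D := by
        calc 72 ^ D * (CS * (j : ℝ) ^ 4 * W)
            ≤ 72 ^ D * (CS * (j : ℝ) ^ 4 * (81 ^ D * (t k : ℝ) ^ D)) := by
              refine mul_le_mul_of_nonneg_left ?_ (by positivity)
              exact mul_le_mul_of_nonneg_left hWle (by positivity)
          _ = M * (j : ℝ) ^ 4 * (t k : ℝ) ^ D := by rw [hM]; ring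
          _ ≤ q * (t k : ℝ) ^ D := by
              rw [hqR]
              refine mul_le_mul_of_nonneg_right ?_ (by positivity)
              exact mul_le_mul_of_nonneg_right hMK (by positivity)
      refine h1.trans_lt ?_
      have htkD : (0 : ℝ) < (t k : ℝ) ^ D := by positivity
      calc (q : ℝ) * (t k : ℝ) ^ D < (q : ℝ) ^ 2 * (t k : ℝ) ^ D := by
            refine mul_lt_mul_of_pos_right ?_ htkD
            nlinarith
        _ ≤ (q : ℝ) ^ 2 * (t k : ℝ) ^ (D + 1) := by
            refine mul_le_mul_of_nonneg_left ?_ (by positivity)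
            exact pow_le_pow_right₀ htk1 (by omega)
        _ = (t k : ℝ) ^ (D + 1) * (q : ℝ) ^ 2 := by ring
    have hmain' : 72 ^ D < τ * t (k + 1) := by
      have h1 := mul_lt_mul_of_pos_left hmain hτpos
      have h2 : τ * (72 ^ D * (1 / τ)) = 72 ^ D := by field_simp
      rw [h2] at h1
      exact h1
    have h72 : (1 : ℝ) ≤ 72 ^ D := one_le_pow₀ (by norm_num)
    have hinv : 1 / τ ≤ t (D + 1) := by
      have h0 : 0 < 1 / τ := by positivity
      have h1 : 1 / τ ≤ 72 ^ D * (1 / τ) := by nlinarith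
      have h2 : (t (k + 1) : ℝ) ≤ t (D + 1) := by exact_mod_cast htD
      linarith
    -- nonempty
    have hTpos : 0 < T.card := by
      have h1 : 1 ≤ (bx N ε).card := by
        refine Finset.card_pos.mpr ⟨0, ?_⟩
        rw [mem_bx]
        intro i
        simp only [Pi.zero_apply, Int.cast_zero, abs_zero]
        positivity
      have h2 : (1 : ℝ) ≤ (bx N ε).card := by exact_mod_cast h1
      by_contra h0
      have h3 : T.card = 0 := by omega
      rw [h3] at hT
      simp only [Nat.cast_zero, mul_zero] at hT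
      linarith
    have hcp : 1 ≤ Fintype.card {i // p i} := by
      by_contra h0
      have h3 : Fintype.card {i // p i} = 0 := by omega
      rw [Fintype.card_eq_zero_iff] at h3
      obtain ⟨v, hv⟩ : T'.Nonempty := by
        rw [← Finset.card_pos, hT'c]
        exact hTpos
      exact hF'.nz v hv (funext fun i => (h3.false i).elim)
    have hcpD : Fintype.card {i // p i} ≤ D := by
      rw [← hcard]
      exact Fintype.card_subtype_le _
    have hg' : LinearIndependent ℚ (fun i : {i // p i} => g i) :=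
      hg.comp _ Subtype.val_injective
    have hδpos : 0 < 1 / (CS * (j : ℝ) ^ 2) := by positivity
    have htD1 : (1 : ℝ) ≤ t (D + 1) := by exact_mod_cast ht1 (D + 1)
    have hε1 : ε ≤ 1 := by nlinarith
    have hqt : (q : ℝ) ≤ t (D + 1) := by
      have : q ≤ t (D + 1) := by
        show q ≤ q ^ ex D (D + 1)
        calc q = q ^ 1 := (pow_one q).symm
          _ ≤ q ^ ex D (D + 1) := Nat.pow_le_pow_right hq1 (ex_pos _ _)
      exact_mod_cast this
    have hQt : Q ≤ Q * t (D + 1) := Nat.le_mul_of_pos_right Q (ht1 (D + 1))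
    have htQ' : (t (D + 1) : ℝ) ≤ ((Q * t (D + 1) : ℕ) : ℝ) := by
      have : t (D + 1) ≤ Q * t (D + 1) := Nat.le_mul_of_pos_left _ (by omega)
      exact_mod_cast this
    obtain ⟨e, he, hres⟩ := HP {i // p i} (fun i => g i) (fun i => N i) ε τ
      (1 / (CS * (j : ℝ) ^ 2)) T' (Q * t (D + 1)) hcp hcpD (fun i => hN i) hg' hε hε1 hτpos
      hδpos hF'
      (by
        rw [hbx, hT'c]
        have h1 : 0 < CS * (j : ℝ) ^ 2 := by positivity
        rw [one_div, inv_mul_le_iff₀ h1]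
        exact hT)
      (by
        have h1 : (t (k + 1) : ℝ) ≤ t (D + 1) := by exact_mod_cast htD
        have h2 : ε * t (k + 1) ≤ 1 / 2 := by
          have := mul_le_mul_of_nonneg_left h1 hε.le
          linarith
        have h3 : 72 ^ D * ε < τ * t (k + 1) * ε := mul_lt_mul_of_pos_right hmain' hε
        nlinarith)
      (by
        intro i
        have h1 : (t (k + 1) : ℝ) ≤ N i := by exact_mod_cast i.2
        exact hmain'.trans_le (mul_le_mul_of_nonneg_left h1 hτpos.le))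
      (by omega)
      (hinv.trans htQ')
      (by
        rw [one_div_one_div]
        calc CS * (j : ℝ) ^ 2 ≤ K * (j : ℝ) ^ 4 :=
              mul_le_mul hCSK (pow_le_pow_right₀ hj1' (by norm_num)) (by positivity)
                (by positivity)
          _ = q := hqR.symm
          _ ≤ t (D + 1) := hqt
          _ ≤ _ := htQ')
      (by
        intro i
        have h1 := hNQ i
        calc N i ≤ 4 * N i := by omega
          _ ≤ 2 ^ Q := h1
          _ ≤ 2 ^ (Q * t (D + 1)) := Nat.pow_le_pow_right (by norm_num) hQt)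
    refine ⟨e, he, ?_⟩
    have hext : (cnt (Lat (fun i : {i // p i} => g i) e) (fun i : {i // p i} => N i) 8 : ℝ) ≤
        cnt (Lat g e) N 8 := by
      exact_mod_cast hE ι g N p e 8 (by norm_num)
    have hprod : ∏ i, (N i : ℝ) ≤ ((t k : ℝ) ^ D) ^ 2 * ∏ i : {i // p i}, (N i : ℝ) := by
      have h1 : ∏ i, (N i : ℝ) = (∏ i : {i // p i}, (N i : ℝ)) *
          ∏ i ∈ Finset.univ.filter (fun i => ¬ p i), (N i : ℝ) := by
        rw [← Finset.prod_filter_mul_prod_filter_not Finset.univ p]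
        congr 1
        exact Finset.prod_subtype _ (fun i => by simp) _
      rw [h1, mul_comm]
      refine mul_le_mul_of_nonneg_right ?_ (Finset.prod_nonneg fun i _ => Nat.cast_nonneg _)
      calc ∏ i ∈ Finset.univ.filter (fun i => ¬ p i), (N i : ℝ)
          ≤ ∏ i ∈ Finset.univ.filter (fun i => ¬ p i), (t k : ℝ) := by
            refine Finset.prod_le_prod (fun i _ => Nat.cast_nonneg _) fun i hi => ?_
            rw [Finset.mem_filter] at hi
            exact_mod_cast (hnp i hi.2).le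
        _ = (t k : ℝ) ^ (Finset.univ.filter (fun i => ¬ p i)).card := by rw [Finset.prod_const]
        _ ≤ (t k : ℝ) ^ D := pow_le_pow_right₀ htk1 hcf
        _ ≤ ((t k : ℝ) ^ D) ^ 2 := by
            have : (1 : ℝ) ≤ (t k : ℝ) ^ D := one_le_pow₀ htk1
            nlinarith
    have hsq : Real.sqrt (∏ i, (N i : ℝ)) ≤
        (t k : ℝ) ^ D * Real.sqrt (∏ i : {i // p i}, (N i : ℝ)) := by
      refine (Real.sqrt_le_sqrt hprod).trans ?_
      rw [Real.sqrt_mul (sq_nonneg _), Real.sqrt_sq (by positivity)]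
    have hqQ5 : (q : ℝ) ≤ (Q : ℝ) ^ 5 := by
      rw [hqR]
      calc (K : ℝ) * (j : ℝ) ^ 4 ≤ Q * (Q : ℝ) ^ 4 :=
            mul_le_mul hKQ (pow_le_pow_left₀ (by positivity) hjQ' 4) (by positivity)
              (by positivity)
        _ = (Q : ℝ) ^ 5 := by ring
    have htQE : (t (D + 1) : ℝ) ≤ (Q : ℝ) ^ (5 * E) := by
      rw [htE, pow_mul]
      exact pow_le_pow_left₀ (by positivity) hqQ5 _
    have hlogt : Real.log ((Q * t (D + 1) : ℕ) : ℝ) ≤ (5 * E + 1) * Real.log Q := by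
      have h1 : ((Q * t (D + 1) : ℕ) : ℝ) ≤ (Q : ℝ) ^ (5 * E + 1) := by
        push_cast
        rw [pow_succ, mul_comm]
        exact mul_le_mul_of_nonneg_right htQE (by linarith)
      have h2 : (0 : ℝ) < ((Q * t (D + 1) : ℕ) : ℝ) := by linarith
      calc Real.log ((Q * t (D + 1) : ℕ) : ℝ) ≤ Real.log ((Q : ℝ) ^ (5 * E + 1)) :=
            Real.log_le_log h2 h1
        _ = (5 * E + 1) * Real.log Q := by
            rw [Real.log_pow]
            push_cast
            ring
    have hlogt0 : 0 ≤ Real.log ((Q * t (D + 1) : ℕ) : ℝ) := Real.log_nonneg (by linarith)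
    have htk : (t k : ℝ) ^ D ≤ Real.exp (5 * D * E * Real.log Q) := by
      have h1 : (t k : ℝ) ≤ t (D + 1) := by exact_mod_cast htmono (by omega)
      calc (t k : ℝ) ^ D ≤ ((Q : ℝ) ^ (5 * E)) ^ D :=
            pow_le_pow_left₀ (by positivity) (h1.trans htQE) _
        _ = (Q : ℝ) ^ (5 * E * D) := by rw [← pow_mul]
        _ = Real.exp (5 * D * E * Real.log Q) := by
            rw [hexpQ]
            push_cast
            congr 1
            ring
    calc Real.sqrt (∏ i, (N i : ℝ))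
        ≤ (t k : ℝ) ^ D * Real.sqrt (∏ i : {i // p i}, (N i : ℝ)) := hsq
      _ ≤ Real.exp (5 * D * E * Real.log Q) *
          (Real.exp (CP * (Real.log ((Q * t (D + 1) : ℕ) : ℝ)) ^ 2) * cnt (Lat g e) N 8) := by
          refine mul_le_mul htk (hres.trans ?_) (Real.sqrt_nonneg _) (Real.exp_pos _).le
          exact mul_le_mul_of_nonneg_left hext (Real.exp_pos _).le
      _ = Real.exp (5 * D * E * Real.log Q + CP * (Real.log ((Q * t (D + 1) : ℕ) : ℝ)) ^ 2) *
          cnt (Lat g e) N 8 := by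
          rw [Real.exp_add]
          ring
      _ ≤ Real.exp (C * (Real.log Q) ^ 2) * cnt (Lat g e) N 8 := by
          refine mul_le_mul_of_nonneg_right (Real.exp_le_exp.mpr ?_) (Nat.cast_nonneg _)
          have h0 : (Real.log ((Q * t (D + 1) : ℕ) : ℝ)) ^ 2 ≤
              ((5 * E + 1) * Real.log Q) ^ 2 := pow_le_pow_left₀ hlogt0 hlogt 2
          have h3 := mul_le_mul_of_nonneg_left h0 (by linarith : (0 : ℝ) ≤ CP)
          have h1 : 5 * (D : ℝ) * E * Real.log Q ≤ 5 * D * E * (Real.log Q) ^ 2 :=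
            mul_le_mul_of_nonneg_left hlogsq (by positivity)
          have h2 : (CP * (5 * (E : ℝ) + 1) ^ 2 + 5 * D * E) * (Real.log Q) ^ 2 ≤
              C * (Real.log Q) ^ 2 := mul_le_mul_of_nonneg_right hCP (sq_nonneg _)
          nlinarith

end Pool.Agent.PCL.H3
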